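import Pool.Agent.Helper80.GF.Main

/-!
# Two-variable logic with counting over graphs without an induced copy of a pattern: the results
-/

set_option autoImplicit false

namespace Pool.Agent.Helper80.GF

open Pool.Agent.Helper29.Prefix Pool.Agent.Helper29.C2 Pool.Agent.Helper80.NF Pool.Agent.Helper80.PO
  Pool.Agent.Helper80.LE Pool.Agent.Helper20.Spectra Pool.Agent.Helper20.PV

/-- universal classes of P4-free graphs are tame -/
theorem tame_sub {r : ℕ} {K : ∀ A : Type, (Unit → A → A → Prop) → Prop} (hK : UnivN r K)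
    (hC : ∀ n R, K (Fin n) R → Cograph (R ())) : Tame K := by
  refine tame_of_univN (Λ := Bool) (fun _ _ _ f g _ => f true ∨ g true) hK ?_
  intro n R' hn hk
  have h := hC n R' hk
  have : Nonempty (Fin n) := ⟨⟨0, hn⟩⟩
  refine sgDef_of_split _ _ (fun _ x => ?_) (fun s hs => ?_)
  · exact ⟨fun h1 => (h.irr x h1).elim, fun h1 => (h1.elim id id).elim⟩
  · obtain ⟨p, h1, h2, h3⟩ := h.p4F.splits (s.card - 2) s (by omega)
    rcases h3 with h3 | h3
    · refine ⟨p, false, h1, h2, fun x hx y hy hpx hpy _ => ?_⟩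
      have := (h3 x hx y hy hpx hpy).2
      have h4 : ¬ R' () y x := fun h5 => this (h.symm _ _ h5)
      exact ⟨by simpa using this, by simpa using h4⟩
    · refine ⟨p, true, h1, h2, fun x hx y hy hpx hpy _ => ?_⟩
      have := h3 x hx y hy hpx hpy
      have h4 : R' () y x := h.symm _ _ this
      exact ⟨by simpa using this, by simpa using h4⟩

lemma cograph_of_free {m : ℕ} {P : SimpleGraph (Fin m)} (g : P ↪g SimpleGraph.pathGraph 4) {A : Type}
    {R : Unit → A → A → Prop} (h : GFree P A R) : Cograph (R ()) := by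
  refine ⟨h.irr, h.symm, fun a b c d hab hbc hcd => ?_⟩
  by_contra hcon
  push Not at hcon
  obtain ⟨hac, had, hbd⟩ := hcon
  have n1 : a ≠ b := fun e => h.irr b (e ▸ hab)
  have n2 : b ≠ c := fun e => h.irr c (e ▸ hbc)
  have n3 : c ≠ d := fun e => h.irr d (e ▸ hcd)
  have n4 : a ≠ c := fun e => had (e ▸ hcd)
  have n5 : a ≠ d := fun e => hac (e ▸ h.symm _ _ hcd)
  have n6 : b ≠ d := fun e => had (e ▸ hab)
  have hinj : Function.Injective (![a, b, c, d] : Fin 4 → A) := by
    intro i j hij
    fin_cases i <;> fin_cases j <;> simp [n1, n2, n3, n4, n5, n6, n1.symm, n2.symm, n3.symm, n4.symm, n5.symm,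
      n6.symm] at hij ⊢
  have hadj : ∀ i j : Fin 4, R () ((![a, b, c, d] : Fin 4 → A) i) ((![a, b, c, d] : Fin 4 → A) j) ↔
      (SimpleGraph.pathGraph 4).Adj i j := by
    intro i j
    rw [SimpleGraph.pathGraph_adj]
    have s1 := h.symm _ _ hab
    have s2 := h.symm _ _ hbc
    have s3 := h.symm _ _ hcd
    have t1 : ¬ R () c a := fun e => hac (h.symm _ _ e)
    have t2 : ¬ R () d a := fun e => had (h.symm _ _ e)
    have t3 : ¬ R () d b := fun e => hbd (h.symm _ _ e)
    have i1 := h.irr a
    have i2 := h.irr b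
    have i3 := h.irr c
    have i4 := h.irr d
    fin_cases i <;> fin_cases j <;> simp [hab, hbc, hcd, hac, had, hbd, s1, s2, s3, t1, t2, t3, i1, i2, i3, i4]
  refine h.free (fun v => (![a, b, c, d] : Fin 4 → A) (g v)) (hinj.comp g.injective) fun i j => ?_
  rw [hadj]
  exact g.map_rel_iff

theorem tame_gFree {m : ℕ} (hm : 0 < m) {P : SimpleGraph (Fin m)} (g : P ↪g SimpleGraph.pathGraph 4) :
    Tame (GFree P) :=
  tame_sub (univN_gFree hm P) fun _ _ h => cograph_of_free g h

theorem ultPeriodic_gAll {S : Set ℕ} (hS : C2Spectrum GAll S) : Pool.Agent.Helper29.C2.UltPeriodic S :=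
  km_ultPeriodic (k := 0) (m := 0) (by omega) (all_spec hS)

/-- **Graphs.** (1) Over all graphs the two-variable spectra are ultimately periodic. (2) If `P` is an induced subgraph
of the path on four vertices, the graphs without an induced copy of `P` are tame. (3) If three vertices of `P` are in
the same cliques with `r` vertices for some `r`, and in at least one, or this holds for the complement of `P`, then over
the graphs without an induced copy of `P` the spectra are spectra, and universal. (4) The complete graphs with at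
least three vertices have this property. -/
theorem graphs :
    (∀ S, C2Spectrum GAll S → Pool.Agent.Helper29.C2.UltPeriodic S) ∧
    (∀ (m : ℕ) (P : SimpleGraph (Fin m)), 0 < m → Nonempty (P ↪g SimpleGraph.pathGraph 4) → Tame (GFree P)) ∧
    (∀ (m : ℕ) (P : SimpleGraph (Fin m)), Alike P ∨ Alike Pᶜ →
      (∀ S, C2Spectrum (GFree P) S → IsSpectrum S) ∧ Univ (C2Spectrum (GFree P))) ∧
    (∀ r : ℕ, 3 ≤ r → Alike (⊤ : SimpleGraph (Fin r))) :=
  ⟨fun _ hS => ultPeriodic_gAll hS, fun _ _ hm ⟨g⟩ => tame_gFree hm g,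
    fun _ P h => ⟨fun _ hS => c2Spectrum_isSpectrum (univN_gFree (alike_pos h) P) hS, univ_alike h⟩,
    fun _ hr => alike_top hr⟩

end Pool.Agent.Helper80.GF
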