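import Pool.Agent.Helper80.GF.Sound

/-!
# Graphs without an induced copy of a pattern: completeness
-/

set_option autoImplicit false

namespace Pool.Agent.Helper80.GF

open Pool.Agent.Helper29.Prefix Pool.Agent.Helper29.C2 Pool.Agent.Helper80.NF Pool.Agent.Helper80.PO

variable {V : Type} {q : ℕ} {P : SimpleGraph V} {r : ℕ} {a b c : V} {M : Type}

/-- adjacent, and the first element has the lower level -/
def ad1 (Po : M → M → Prop) (d : M → PCol q) (x y : M) : Prop :=
  lev (d x).s < lev (d y).s ∧ ((lev (d x).s = 0 ∧ lev (d y).s = 2) → ¬ Po x y) ∧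
    (¬ (lev (d x).s = 0 ∧ lev (d y).s = 2) → Po x y)

/-- adjacency of elements of the board -/
def ad (Po : M → M → Prop) (d : M → PCol q) (x y : M) : Prop := ad1 Po d x y ∨ ad1 Po d y x

lemma pl_ad {Po : M → M → Prop} {d : M → PCol q} (h : ∀ x y, Po x y → lev (d x).s < lev (d y).s) (x y : M) :
    pl (d x) (d y) (ad Po d x y) ↔ Po x y := by
  constructor
  · rintro ⟨h1, h2, h3⟩
    by_cases h4 : lev (d x).s = 0 ∧ lev (d y).s = 2
    · by_contra h5
      exact h2 h4 (Or.inl ⟨h1, fun _ => h5, fun h => absurd h4 h⟩)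
    · rcases h3 h4 with h5 | h5
      · exact h5.2.2 h4
      · exact absurd h5.1 (by omega)
  · intro h1
    refine ⟨h x y h1, fun h4 h5 => ?_, fun h4 => Or.inl ⟨h x y h1, fun h => absurd h h4, fun _ => h1⟩⟩
    rcases h5 with h5 | h5
    · exact h5.2.1 h4 h1
    · have := h5.1
      have := h x y h1
      omega

/-- the colours -/
def kk (a b c : V) (d : M → PCol q) : M ⊕ Rest a b c → PCol q ⊕ Rest a b c := Sum.map d id

/-- the structure -/
def gs (P : SimpleGraph V) (a b c : V) (Po N N' Q : M → M → Prop) (d : M → PCol q) :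
    Str Unit (PCol q ⊕ Rest a b c) (Fin 3) (M ⊕ Rest a b c) where
  ord := fun _ x y => match x, y with
    | Sum.inl x, Sum.inl y => ad Po d x y
    | x, y => P.Adj (pos a b c (kk a b c d x)) (pos a b c (kk a b c d y))
  un := fun C x => C = kk a b c d x
  bin := fun i x y => match x, y with
    | Sum.inl x, Sum.inl y => if i = 0 then N x y else if i = 1 then N' x y else Q x y
    | _, _ => False

lemma lev_pos (H : Tri P r a b c) (d : PCol q) : (pos a b c (Sum.inl d) = a ↔ lev d.s = 0) ∧
    (pos a b c (Sum.inl d) = b ↔ lev d.s = 1) ∧ (pos a b c (Sum.inl d) = c ↔ lev d.s = 2) := by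
  have h1 := H.ab
  have h2 := H.ac
  have h3 := H.bc
  rcases pos_inl (a := a) (b := b) (c := c) d with ⟨e, l⟩ | ⟨e, l⟩ | ⟨e, l⟩ <;> rw [e, l] <;>
    simp [h1, h2, h3, h1.symm, h2.symm, h3.symm]

lemma gs_hom (H : Tri P r a b c) (Po N N' Q : M → M → Prop) (d : M → PCol q) (x y : M ⊕ Rest a b c)
    (h : (gs P a b c Po N N' Q d).ord () x y) :
    P.Adj (pos a b c (kk a b c d x)) (pos a b c (kk a b c d y)) := by
  obtain ⟨hab, hac, hbc⟩ := H.adj
  rcases x with x | x <;> rcases y with y | y
  · have h : ad Po d x y := h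
    have hne : lev (d x).s ≠ lev (d y).s := by
      rcases h with h | h
      · exact h.1.ne
      · exact h.1.ne'
    show P.Adj (pos a b c (Sum.inl (d x))) (pos a b c (Sum.inl (d y)))
    rcases pos_inl (a := a) (b := b) (c := c) (d x) with ⟨e, l⟩ | ⟨e, l⟩ | ⟨e, l⟩ <;>
      rcases pos_inl (a := a) (b := b) (c := c) (d y) with ⟨e', l'⟩ | ⟨e', l'⟩ | ⟨e', l'⟩ <;> rw [e, e']
    · exact absurd (l.trans l'.symm) hne
    · exact hab
    · exact hac
    · exact hab.symm
    · exact absurd (l.trans l'.symm) hne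
    · exact hbc
    · exact hac.symm
    · exact hbc.symm
    · exact absurd (l.trans l'.symm) hne
  · exact h
  · exact h
  · exact h

lemma gs_symm (Po N N' Q : M → M → Prop) (d : M → PCol q) (x y : M ⊕ Rest a b c)
    (h : (gs P a b c Po N N' Q d).ord () x y) : (gs P a b c Po N N' Q d).ord () y x := by
  rcases x with x | x <;> rcases y with y | y
  · exact Or.symm h
  · exact (show P.Adj _ _ from h).symm
  · exact (show P.Adj _ _ from h).symm
  · exact (show P.Adj _ _ from h).symm

/-- there is no induced copy of `P` -/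
theorem gs_free [Fintype V] (H : Tri P r a b c) {Po : M → M → Prop} (N N' Q : M → M → Prop) (d : M → PCol q)
    (htr : ∀ x y z, Po x y → Po y z → Po x z) :
    GFree P (M ⊕ Rest a b c) (gs P a b c Po N N' Q d).ord := by
  classical
  refine ⟨?_, fun x y => gs_symm _ _ _ _ _ x y, fun f hf hcon => ?_⟩
  · rintro (x | x) h
    · rcases h with h | h <;> exact absurd h.1 (lt_irrefl _)
    · exact P.loopless.irrefl _ h
  · obtain ⟨φ, hφ⟩ : ∃ φ : V → V, φ = fun v => pos a b c (kk a b c d (f v)) := ⟨_, rfl⟩
    have hom : ∀ v w, P.Adj v w → P.Adj (φ v) (φ w) := by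
      intro v w h
      rw [hφ]
      exact gs_hom H Po N N' Q d _ _ ((hcon v w).2 h)
    -- the image of a clique
    have hcl : ∀ S : Finset V, P.IsNClique r S → P.IsNClique r (S.image φ) := by
      intro S hS
      refine ⟨?_, ?_⟩
      · intro x hx y hy hxy
        rw [Finset.coe_image] at hx hy
        obtain ⟨v, hv, rfl⟩ := hx
        obtain ⟨w, hw, rfl⟩ := hy
        exact hom v w (hS.isClique hv hw (fun h => hxy (by rw [h])))
      · rw [Finset.card_image_of_injOn, hS.card_eq]
        intro v hv w hw hvw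
        by_contra hne
        exact (hom v w (hS.isClique hv hw hne)).ne hvw
    have hav : ∀ S : Finset V, P.IsNClique r S → ¬ (a ∈ S.image φ ∨ b ∈ S.image φ ∨ c ∈ S.image φ) := by
      intro S hS h
      obtain ⟨ha, hb, hc⟩ := H.all _ (hcl S hS) h
      obtain ⟨v1, m1, e1⟩ := Finset.mem_image.1 ha
      obtain ⟨v2, m2, e2⟩ := Finset.mem_image.1 hb
      obtain ⟨v3, m3, e3⟩ := Finset.mem_image.1 hc
      have n12 : v1 ≠ v2 := fun h => H.ab (by rw [← e1, ← e2, h])
      have n13 : v1 ≠ v3 := fun h => H.ac (by rw [← e1, ← e3, h])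
      have n23 : v2 ≠ v3 := fun h => H.bc (by rw [← e2, ← e3, h])
      have r12 := (hcon v1 v2).2 (hS.isClique m1 m2 n12)
      have r13 := (hcon v1 v3).2 (hS.isClique m1 m3 n13)
      have r23 := (hcon v2 v3).2 (hS.isClique m2 m3 n23)
      rw [hφ] at e1 e2 e3
      simp only at e1 e2 e3
      rcases h1 : f v1 with x | g
      swap
      · rw [h1] at e1; exact g.2.1 e1
      rcases h2 : f v2 with y | g
      swap
      · rw [h2] at e2; exact g.2.2.1 e2
      rcases h3 : f v3 with z | g
      swap
      · rw [h3] at e3; exact g.2.2.2 e3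
      rw [h1] at e1 r12 r13
      rw [h2] at e2 r12 r23
      rw [h3] at e3 r13 r23
      have lx := (lev_pos H (d x)).1.1 e1
      have ly := (lev_pos H (d y)).2.1.1 e2
      have lz := (lev_pos H (d z)).2.2.1 e3
      have r12 : ad Po d x y := r12
      have r13 : ad Po d x z := r13
      have r23 : ad Po d y z := r23
      have p12 : Po x y := by
        rcases r12 with r | r
        · exact r.2.2 (by omega)
        · exact absurd r.1 (by omega)
      have p23 : Po y z := by
        rcases r23 with r | r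
        · exact r.2.2 (by omega)
        · exact absurd r.1 (by omega)
      rcases r13 with r | r
      · exact r.2.1 ⟨lx, lz⟩ (htr x y z p12 p23)
      · exact absurd r.1 (by omega)
    have hinr : ∀ S : Finset V, P.IsNClique r S → ∀ v ∈ S, ∃ g : Rest a b c, f v = Sum.inr g := by
      intro S hS v hv
      rcases h1 : f v with x | g
      · exfalso
        refine hav S hS ?_
        have h2 : φ v ∈ S.image φ := Finset.mem_image_of_mem _ hv
        have h3 : φ v = pos a b c (Sum.inl (d x)) := by rw [hφ]; simp only [h1]; rfl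
        rw [h3] at h2
        rcases pos_inl (a := a) (b := b) (c := c) (d x) with ⟨e, -⟩ | ⟨e, -⟩ | ⟨e, -⟩ <;> rw [e] at h2
        · exact Or.inl h2
        · exact Or.inr (Or.inl h2)
        · exact Or.inr (Or.inr h2)
      · exact ⟨g, rfl⟩
    have hsub : ∀ S S' : Finset V, P.IsNClique r S → P.IsNClique r S' → S.image φ = S'.image φ → S ⊆ S' := by
      intro S S' hS hS' h v hv
      have h1 : φ v ∈ S'.image φ := h ▸ Finset.mem_image_of_mem _ hv
      obtain ⟨w, hw, hwv⟩ := Finset.mem_image.1 h1
      obtain ⟨g, hg⟩ := hinr S hS v hv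
      obtain ⟨g', hg'⟩ := hinr S' hS' w hw
      rw [hφ] at hwv
      simp only [hg, hg'] at hwv
      have h2 : g' = g := Subtype.ext hwv
      have h3 : f v = f w := by rw [hg, hg', h2]
      rw [hf h3]
      exact hw
    have c1 : (P.cliqueFinset r).card ≤
        ((P.cliqueFinset r).filter fun S => a ∉ S ∧ b ∉ S ∧ c ∉ S).card := by
      refine Finset.card_le_card_of_injOn (fun S => S.image φ) ?_ ?_
      · intro S hS
        have hS := (SimpleGraph.mem_cliqueFinset_iff).1 (Finset.mem_coe.1 hS)
        rw [Finset.mem_coe, Finset.mem_filter, SimpleGraph.mem_cliqueFinset_iff]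
        have := hav S hS
        push Not at this
        exact ⟨hcl S hS, this⟩
      · intro S hS S' hS' h
        have hS := (SimpleGraph.mem_cliqueFinset_iff).1 (Finset.mem_coe.1 hS)
        have hS' := (SimpleGraph.mem_cliqueFinset_iff).1 (Finset.mem_coe.1 hS')
        exact Finset.Subset.antisymm (hsub S S' hS hS' h) (hsub S' S hS' hS h.symm)
    have c2 : ((P.cliqueFinset r).filter fun S => a ∉ S ∧ b ∉ S ∧ c ∉ S).card < (P.cliqueFinset r).card := by
      refine Finset.card_lt_card ⟨Finset.filter_subset _ _, fun h => ?_⟩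
      obtain ⟨S, hS, ha, -, -⟩ := H.ex
      exact (Finset.mem_filter.1 (h ((SimpleGraph.mem_cliqueFinset_iff).2 hS))).2.1 ha
    omega

/-- the structure satisfies the sentence -/
theorem gs_ax {W : Wang (Fin q)} [Nonempty M] {Po N N' Q : M → M → Prop} {d : M → PCol q}
    (H : POAx W Po N N' Q d) :
    (∀ x y, uGF P W a b c (kk a b c d x) (kk a b c d y) (fact (gs P a b c Po N N' Q d) x y)) ∧
    ∀ i x, gGF a b c i (kk a b c d x) →
      ∃! y, wGF a b c i (kk a b c d x) (kk a b c d y) (fact (gs P a b c Po N N' Q d) x y) := by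
  obtain ⟨M1, hM1⟩ : ∃ M1 : Str Unit Unit (Fin 3) M, M1 = ⟨fun _ => Po, fun _ _ => True,
    fun i x y => if i = 0 then N x y else if i = 1 then N' x y else Q x y⟩ := ⟨_, rfl⟩
  have hH : POAx W (M1.ord ()) (M1.bin 0) (M1.bin 1) (M1.bin 2) d := by rw [hM1]; exact H
  have hF : ∀ x y : M, der (d x) (d y) (fact (gs P a b c Po N N' Q d) (Sum.inl x) (Sum.inl y)) = fact M1 x y := by
    intro x y
    rw [hM1]
    unfold fact der
    simp only [Fct.mk.injEq]
    refine ⟨by simp, ?_, ?_, rfl, rfl⟩
    · funext _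
      exact propext (pl_ad (fun x y h => (H.lt x y h).1) x y)
    · funext _
      exact propext (pl_ad (fun x y h => (H.lt x y h).1) y x)
  obtain ⟨hu, hw⟩ := (poAx_iff M1 d (by rw [hM1]; exact H.tr)).1 hH
  constructor
  · rintro (x | x) (y | y)
    · show (lev (d x).s = lev (d y).s → ¬ ad Po d x y) ∧ uPO W (d x) (d y) (der (d x) (d y) _)
      refine ⟨fun h h' => ?_, ?_⟩
      · rcases h' with h' | h'
        · exact absurd h'.1 (by omega)
        · exact absurd h'.1 (by omega)
      · rw [hF]
        exact hu x y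
    · exact ⟨Iff.rfl, fun i h => h⟩
    · exact ⟨Iff.rfl, fun i h => h⟩
    · exact ⟨Iff.rfl, fun i h => h⟩
  · rintro (i | h) x hg
    · rcases x with x | x
      · obtain ⟨y, hy, hy'⟩ := hw i x hg
        refine ⟨Sum.inl y, ?_, ?_⟩
        · show wPO i (d x) (d y) (der (d x) (d y) _)
          rw [hF]
          exact hy
        · rintro (z | z) hz
          · have hz : wPO i (d x) (d z) (der (d x) (d z) (fact (gs P a b c Po N N' Q d) (Sum.inl x) (Sum.inl z))) := hz
            rw [hF] at hz
            rw [hy' z hz]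
          · exact hz.elim
      · exact hg.elim
    · refine ⟨Sum.inr h, rfl, ?_⟩
      rintro (z | z) hz
      · have hz : (Sum.inl (d z) : PCol q ⊕ Rest a b c) = Sum.inr h := hz
        exact absurd hz (by simp)
      · have hz : (Sum.inr z : PCol q ⊕ Rest a b c) = Sum.inr h := hz
        rw [Sum.inr.inj hz]

end Pool.Agent.Helper80.GF
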