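import Pool.Agent.Helper80.PO.Main

/-!
# Graphs without an induced copy of a pattern: definitions and the sentence

The levels `0`, `1`, `2` of a partial order are placed on three vertices `a`, `b`, `c` of the pattern, the other
vertices of the pattern are added. Two elements of the levels `0` and `2` are adjacent if they are not comparable, other
elements of different levels if they are comparable.
-/

set_option autoImplicit false

namespace Pool.Agent.Helper80.GF

open Pool.Agent.Helper29.Prefix Pool.Agent.Helper29.C2 Pool.Agent.Helper80.NF Pool.Agent.Helper80.PO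

/-- The graphs. -/
structure GAll (A : Type) (R : Unit → A → A → Prop) : Prop where
  irr : ∀ x, ¬ R () x x
  symm : ∀ x y, R () x y → R () y x

/-- The graphs without an induced copy of `P`. -/
structure GFree {V : Type} (P : SimpleGraph V) (A : Type) (R : Unit → A → A → Prop) : Prop where
  irr : ∀ x, ¬ R () x x
  symm : ∀ x y, R () x y → R () y x
  free : ∀ f : V → A, Function.Injective f → ¬ ∀ i j, (R () (f i) (f j) ↔ P.Adj i j)

/-- Three vertices `a`, `b`, `c` of `P` are in the same cliques with `r` vertices, and in at least one. -/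
structure Tri {V : Type} (P : SimpleGraph V) (r : ℕ) (a b c : V) : Prop where
  ab : a ≠ b
  ac : a ≠ c
  bc : b ≠ c
  ex : ∃ S : Finset V, P.IsNClique r S ∧ a ∈ S ∧ b ∈ S ∧ c ∈ S
  all : ∀ S : Finset V, P.IsNClique r S → (a ∈ S ∨ b ∈ S ∨ c ∈ S) → a ∈ S ∧ b ∈ S ∧ c ∈ S

/-- the other vertices -/
abbrev Rest {V : Type} (a b c : V) : Type := {v : V // v ≠ a ∧ v ≠ b ∧ v ≠ c}

/-- the vertex of the pattern -/
def pos {V : Type} {q : ℕ} (a b c : V) : PCol q ⊕ Rest a b c → V
  | Sum.inl d => if lev d.s = 0 then a else if lev d.s = 1 then b else c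
  | Sum.inr h => h.1

/-- the order of two elements with the given adjacency -/
def pl {q : ℕ} (d d' : PCol q) (o : Prop) : Prop :=
  lev d.s < lev d'.s ∧ ((lev d.s = 0 ∧ lev d'.s = 2) → ¬ o) ∧ (¬ (lev d.s = 0 ∧ lev d'.s = 2) → o)

/-- the facts of a pair, with the order as background -/
def der {q : ℕ} (d d' : PCol q) (f : Fct Unit (Fin 3)) : Fct Unit (Fin 3) :=
  ⟨f.eq, fun _ => pl d d' (f.o ()), fun _ => pl d' d (f.o' ()), f.b, f.b'⟩

/-- conditions on pairs -/
def uGF {V : Type} {q : ℕ} (P : SimpleGraph V) (W : Wang (Fin q)) (a b c : V) :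
    PCol q ⊕ Rest a b c → PCol q ⊕ Rest a b c → Fct Unit (Fin 3) → Prop
  | Sum.inl d, Sum.inl d', f => (lev d.s = lev d'.s → ¬ f.o ()) ∧ uPO W d d' (der d d' f)
  | x, y, f => (f.o () ↔ P.Adj (pos a b c x) (pos a b c y)) ∧ ∀ i, ¬ f.b i

/-- guards -/
def gGF {V : Type} {q : ℕ} (a b c : V) : Ix ⊕ Rest a b c → PCol q ⊕ Rest a b c → Prop
  | Sum.inl i, Sum.inl d => gPO i d
  | Sum.inl _, Sum.inr _ => False
  | Sum.inr _, _ => True

/-- witnesses -/
def wGF {V : Type} {q : ℕ} (a b c : V) :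
    Ix ⊕ Rest a b c → PCol q ⊕ Rest a b c → PCol q ⊕ Rest a b c → Fct Unit (Fin 3) → Prop
  | Sum.inl i, Sum.inl d, Sum.inl d', f => wPO i d d' (der d d' f)
  | Sum.inl _, _, _, _ => False
  | Sum.inr h, _, y, _ => y = Sum.inr h

/-- the sentence -/
theorem gf_formula {V : Type} [Finite V] {q : ℕ} (P : SimpleGraph V) (W : Wang (Fin q)) (a b c : V) :
    ∃ Φ : Fm Unit (PCol q ⊕ Rest a b c) (Fin 3), ∀ (A : Type) (M : Str Unit (PCol q ⊕ Rest a b c) (Fin 3) A),
      (∀ e, Sat M Φ e) ↔ ∃ k : A → PCol q ⊕ Rest a b c, (∀ x Q, M.un Q x ↔ Q = k x) ∧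
        (∀ x y, uGF P W a b c (k x) (k y) (fact M x y)) ∧
        ∀ i x, gGF a b c i (k x) → ∃! y, wGF a b c i (k x) (k y) (fact M x y) :=
  nf_unique (uGF P W a b c) (gGF a b c) (wGF a b c)

variable {V : Type} {q : ℕ} {P : SimpleGraph V} {r : ℕ} {a b c : V}

lemma Tri.adj (H : Tri P r a b c) : P.Adj a b ∧ P.Adj a c ∧ P.Adj b c := by
  obtain ⟨S, hS, ha, hb, hc⟩ := H.ex
  exact ⟨hS.isClique ha hb H.ab, hS.isClique ha hc H.ac, hS.isClique hb hc H.bc⟩

lemma pos_inl (d : PCol q) : pos a b c (Sum.inl d) = a ∧ lev d.s = 0 ∨ pos a b c (Sum.inl d) = b ∧ lev d.s = 1 ∨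
    pos a b c (Sum.inl d) = c ∧ lev d.s = 2 := by
  unfold pos lev
  split_ifs <;> simp_all

end Pool.Agent.Helper80.GF
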