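import Pool.Agent.Helper80.GF.Complete

/-!
# Two-variable logic with counting over graphs without an induced copy of a pattern
-/

set_option autoImplicit false

namespace Pool.Agent.Helper80.GF

open Pool.Agent.Helper29.Prefix Pool.Agent.Helper29.C2 Pool.Agent.Helper80.NF Pool.Agent.Helper80.PO
  Pool.Agent.Helper80.LE Pool.Agent.Helper20.Spectra Pool.Agent.Helper20.PV

lemma GFree.tr {V : Type} {P : SimpleGraph V} {A B : Type} (e : B ≃ A) {R : Unit → A → A → Prop} (h : GFree P A R) :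
    GFree P B (fun l x y => R l (e x) (e y)) :=
  ⟨fun _ => h.irr _, fun _ _ => h.symm _ _, fun f hf => h.free (fun v => e (f v)) (e.injective.comp hf)⟩

/-- the sizes of the models -/
theorem gf_sizes {V : Type} [Fintype V] {q : ℕ} (P : SimpleGraph V) {r : ℕ} {a b c : V} (H : Tri P r a b c)
    (W : Wang (Fin q)) (Φ : Fm Unit (PCol q ⊕ Rest a b c) (Fin 3))
    (hΦ : ∀ (A : Type) (M : Str Unit (PCol q ⊕ Rest a b c) (Fin 3) A),
      (∀ e, Sat M Φ e) ↔ ∃ k : A → PCol q ⊕ Rest a b c, (∀ x Q, M.un Q x ↔ Q = k x) ∧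
        (∀ x y, uGF P W a b c (k x) (k y) (fact M x y)) ∧
        ∀ i x, gGF a b c i (k x) → ∃! y, wGF a b c i (k x) (k y) (fact M x y)) {N : ℕ} (hN : 1 ≤ N) :
    Tiles W N ↔ 3 * N ^ 3 + 2 * N ^ 2 + Nat.card (Rest a b c) ∈ {n : ℕ | 1 ≤ n ∧
      ∃ M : Str Unit (PCol q ⊕ Rest a b c) (Fin 3) (Fin n), GFree P (Fin n) M.ord ∧ ∀ e, Sat M Φ e} := by
  classical
  rw [Nat.card_eq_fintype_card]
  have hpos : 0 < N ^ 3 := Nat.pow_pos hN
  constructor
  · intro hT
    obtain ⟨hn, M, _, Po, N1, N2, Q, d, hcard, HA⟩ := (po_sizes W hN).1 hT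
    haveI : Nonempty M := by
      rw [← Fintype.card_pos_iff]
      omega
    refine ⟨by omega, ?_⟩
    have hc : Fintype.card (M ⊕ Rest a b c) = 3 * N ^ 3 + 2 * N ^ 2 + Fintype.card (Rest a b c) := by
      rw [Fintype.card_sum, hcard]
    have e : Fin (3 * N ^ 3 + 2 * N ^ 2 + Fintype.card (Rest a b c)) ≃ M ⊕ Rest a b c :=
      (Fintype.equivFinOfCardEq hc).symm
    refine ⟨trS e (gs P a b c Po N1 N2 Q d), (gs_free H N1 N2 Q d HA.tr).tr e, fun w => ?_⟩
    rw [sat_trS]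
    exact (hΦ _ _).2 ⟨kk a b c d, fun x C => Iff.rfl, gs_ax HA⟩ _
  · rintro ⟨-, M, hG, hs⟩
    obtain ⟨k, -, hu, hw⟩ := (hΦ _ M).1 hs
    have hne : Nonempty (Fin (3 * N ^ 3 + 2 * N ^ 2 + Fintype.card (Rest a b c))) := ⟨⟨0, by omega⟩⟩
    have hg : ∀ g : Rest a b c, ∃! w, k w = Sum.inr g := fun g => hw (Sum.inr g) hne.some trivial
    have hc := gf_card k hg
    rw [Fintype.card_fin] at hc
    haveI : Nonempty (Bd k) := by
      rw [← Fintype.card_pos_iff]
      omega
    refine (po_sizes W hN).2 ⟨by omega, Bd k, inferInstance, _, _, _, _, dc k, by omega, gf_sound H M k hG hu hw⟩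

theorem univ_gFree {V : Type} [Fintype V] {P : SimpleGraph V} {r : ℕ} {a b c : V} (H : Tri P r a b c) :
    Univ (C2Spectrum (GFree P)) := by
  classical
  refine univ_of_tiles fun q W => ?_
  obtain ⟨Φ, hΦ⟩ := gf_formula P W a b c
  refine ⟨Polynomial.C 3 * Polynomial.X ^ 3 + Polynomial.C 2 * Polynomial.X ^ 2 +
    Polynomial.C (Nat.card (Rest a b c)), _, ⟨PCol q ⊕ Rest a b c, Fin 3, inferInstance, inferInstance, Φ, rfl⟩,
    fun N hN => ?_⟩
  rw [gf_sizes P H W Φ hΦ hN]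
  simp

lemma univN_gFree {m : ℕ} (hm : 0 < m) (P : SimpleGraph (Fin m)) : UnivN (m + 2) (GFree P) := by
  have hle : m ≤ m + 2 := by omega
  refine ⟨fun o e => ¬ o () 0 0 ∧ (o () 0 1 → o () 1 0) ∧
    ((∀ i j : Fin m, e (Fin.castLE hle i) (Fin.castLE hle j) → i = j) →
      ¬ ∀ i j : Fin m, (o () (Fin.castLE hle i) (Fin.castLE hle j) ↔ P.Adj i j)), fun A R => ?_⟩
  constructor
  · intro H v
    exact ⟨H.irr _, H.symm _ _, fun h => H.free (fun i => v (Fin.castLE hle i)) fun i j hij => h i j hij⟩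
  · intro H
    refine ⟨fun x => (H (fun _ => x)).1, fun x y => ?_, fun f hf hcon => ?_⟩
    · have := (H (fun i => if i.1 = 0 then x else y)).2.1
      simpa using this
    · let g : Fin (m + 2) → A := fun i => if hi : i.1 < m then f ⟨i.1, hi⟩ else f ⟨0, hm⟩
      have e1 : ∀ i : Fin m, g (Fin.castLE hle i) = f i := fun i => dif_pos i.2
      refine (H g).2.2 (fun i j hij => hf (by rw [← e1, ← e1]; exact hij)) fun i j => ?_
      show R () (g _) (g _) ↔ _
      rw [e1, e1]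
      exact hcon i j

/-! ### Complements -/

/-- the background relation replaced by its complement -/
def co {Λ U V : Type} : Fm Λ U V → Fm Λ U V
  | Fm.eq => Fm.eq
  | Fm.ord l v => Fm.and (Fm.neg Fm.eq) (Fm.neg (Fm.ord l v))
  | Fm.un P v => Fm.un P v
  | Fm.bin E v w => Fm.bin E v w
  | Fm.neg φ => Fm.neg (co φ)
  | Fm.and φ ψ => Fm.and (co φ) (co ψ)
  | Fm.ex k v φ => Fm.ex k v (co φ)

/-- the complement of the background -/
def coS {Λ U V A : Type} (M : Str Λ U V A) : Str Λ U V A where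
  ord := fun l x y => x ≠ y ∧ ¬ M.ord l x y
  un := M.un
  bin := M.bin

lemma sat_co {Λ U V A : Type} (M : Str Λ U V A) (φ : Fm Λ U V) : ∀ e : Bool → A,
    Sat M (co φ) e ↔ Sat (coS M) φ e := by
  induction φ with
  | eq => intro e; exact Iff.rfl
  | ord l v =>
    intro e
    show (¬ e true = e false ∧ ¬ M.ord l (e v) (e (!v))) ↔ (e v ≠ e (!v) ∧ ¬ M.ord l (e v) (e (!v)))
    refine and_congr_left fun _ => ?_
    cases v
    · exact ⟨fun h h' => h h'.symm, fun h h' => h h'.symm⟩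
    · exact Iff.rfl
  | un P v => intro e; exact Iff.rfl
  | bin E v w => intro e; exact Iff.rfl
  | neg φ ih => intro e; exact not_congr (ih e)
  | and φ ψ ih1 ih2 => intro e; exact and_congr (ih1 e) (ih2 e)
  | ex k v φ ih =>
    intro e
    show k ≤ Nat.card _ ↔ k ≤ Nat.card _
    simp only [ih]

lemma GFree.compl {V A : Type} {P : SimpleGraph V} {R : Unit → A → A → Prop} (h : GFree P A R) :
    GFree Pᶜ A (fun l x y => x ≠ y ∧ ¬ R l x y) := by
  refine ⟨fun x hx => hx.1 rfl, fun x y hxy => ⟨hxy.1.symm, fun h' => hxy.2 (h.symm _ _ h')⟩, fun f hf hcon => ?_⟩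
  refine h.free f hf fun i j => ?_
  by_cases hij : i = j
  · subst hij
    exact ⟨fun h' => absurd h' (h.irr _), fun h' => absurd h' (P.loopless.irrefl _)⟩
  · have h1 := hcon i j
    rw [SimpleGraph.compl_adj] at h1
    have h2 : f i ≠ f j := fun h => hij (hf h)
    by_contra h3
    have h4 : ¬ (R () (f i) (f j)) ↔ ¬ P.Adj i j :=
      ⟨fun h => (h1.1 ⟨h2, h⟩).2, fun h => (h1.2 ⟨hij, h⟩).2⟩
    exact h3 (not_iff_not.1 h4)

lemma gFree_compl {V : Type} {P : SimpleGraph V} {S : Set ℕ} (h : C2Spectrum (GFree P) S) :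
    C2Spectrum (GFree Pᶜ) S := by
  obtain ⟨U, V', hU, hV, Φ, rfl⟩ := h
  refine ⟨U, V', hU, hV, co Φ, Set.ext fun n => and_congr_right fun hn => ?_⟩
  constructor
  · rintro ⟨M, h1, h2⟩
    refine ⟨coS M, h1.compl, fun e => ?_⟩
    rw [sat_co]
    have : coS (coS M) = M := by
      have : (coS (coS M)).ord = M.ord := by
        funext l x y
        refine propext ⟨fun h => ?_, fun h => ⟨?_, fun h' => h'.2 h⟩⟩
        · by_contra h'
          exact h.2 ⟨h.1, h'⟩
        · rintro rfl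
          exact h1.irr x h
      show (⟨(coS (coS M)).ord, M.un, M.bin⟩ : Str _ _ _ _) = _
      rw [this]
    rw [this]
    exact h2 e
  · rintro ⟨M, h1, h2⟩
    refine ⟨coS M, ?_, fun e => ?_⟩
    · have := h1.compl
      rwa [compl_compl] at this
    · rw [← sat_co]
      exact h2 e

/-! ### Results -/

/-- Three vertices of `P` are in the same cliques with `r` vertices, and in at least one. -/
def Alike {V : Type} (P : SimpleGraph V) : Prop := ∃ (r : ℕ) (a b c : V), Tri P r a b c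

lemma univ_alike {V : Type} [Fintype V] {P : SimpleGraph V} (h : Alike P ∨ Alike Pᶜ) : Univ (C2Spectrum (GFree P)) := by
  rcases h with ⟨r, a, b, c, h⟩ | ⟨r, a, b, c, h⟩
  · exact univ_gFree h
  · refine univ_mono (fun S hS => ?_) (univ_gFree h)
    have := gFree_compl hS
    rwa [compl_compl] at this

lemma alike_pos {m : ℕ} {P : SimpleGraph (Fin m)} (h : Alike P ∨ Alike Pᶜ) : 0 < m := by
  rcases h with ⟨_, a, _⟩ | ⟨_, a, _⟩ <;> exact a.pos

lemma alike_top {r : ℕ} (hr : 3 ≤ r) : Alike (⊤ : SimpleGraph (Fin r)) := by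
  refine ⟨r, ⟨0, by omega⟩, ⟨1, by omega⟩, ⟨2, by omega⟩, ?_, ?_, ?_, ⟨Finset.univ, ⟨?_, ?_⟩, ?_, ?_, ?_⟩, ?_⟩
  · simp
  · simp
  · simp
  · intro x _ y _ hxy
    exact hxy
  · simp
  · simp
  · simp
  · simp
  · intro S hS _
    have : S = Finset.univ := by
      rw [← Finset.card_eq_iff_eq_univ, hS.card_eq, Fintype.card_fin]
    rw [this]
    simp

lemma all_spec {S : Set ℕ} (h : C2Spectrum GAll S) : C2Spectrum (KM 0 0) S := by
  refine free_spec (fun U V => Fm.and (Fm.neg (Fm.bin none true true))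
    (Fm.neg (Fm.and (Fm.bin none true false) (Fm.neg (Fm.bin none false true))))) ?_ h
  intro U V n M hn
  constructor
  · intro H e
    exact ⟨H.irr _, fun h => h.2 (H.symm _ _ h.1)⟩
  · intro H
    refine ⟨fun x => (H (fun _ => x)).1, fun x y h => ?_⟩
    by_contra h'
    exact (H (fun b => if b then x else y)).2 ⟨h, h'⟩

end Pool.Agent.Helper80.GF
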