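import Pool.Agent.Helper80.GF.Defs

/-!
# Graphs without an induced copy of a pattern: soundness
-/

set_option autoImplicit false

namespace Pool.Agent.Helper80.GF

open Pool.Agent.Helper29.Prefix Pool.Agent.Helper29.C2 Pool.Agent.Helper80.NF Pool.Agent.Helper80.PO

variable {V : Type} {q : ℕ} {P : SimpleGraph V} {r : ℕ} {a b c : V} {A : Type}

/-- the board -/
abbrev Bd (k : A → PCol q ⊕ Rest a b c) : Type := {x : A // (k x).isLeft = true}

/-- the colour -/
def dc (k : A → PCol q ⊕ Rest a b c) (x : Bd k) : PCol q := (k x.1).getLeft x.2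

lemma dc_eq (k : A → PCol q ⊕ Rest a b c) (x : Bd k) : k x.1 = Sum.inl (dc k x) := by
  unfold dc
  exact (Sum.inl_getLeft _ _).symm

/-- the structure of the board -/
def bd (M : Str Unit (PCol q ⊕ Rest a b c) (Fin 3) A) (k : A → PCol q ⊕ Rest a b c) :
    Str Unit (PCol q ⊕ Rest a b c) (Fin 3) (Bd k) where
  ord := fun _ x y => pl (dc k x) (dc k y) (M.ord () x.1 y.1)
  un := fun Q x => M.un Q x.1
  bin := fun E x y => M.bin E x.1 y.1

lemma fact_bd (M : Str Unit (PCol q ⊕ Rest a b c) (Fin 3) A) (k : A → PCol q ⊕ Rest a b c) (x y : Bd k) :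
    fact (bd M k) x y = der (dc k x) (dc k y) (fact M x.1 y.1) := by
  unfold fact der bd
  simp only [Fct.mk.injEq, and_true]
  exact propext Subtype.ext_iff

/-- the soundness -/
theorem gf_sound {W : Wang (Fin q)} (H : Tri P r a b c) (M : Str Unit (PCol q ⊕ Rest a b c) (Fin 3) A)
    (k : A → PCol q ⊕ Rest a b c) (hG : GFree P A M.ord) [Nonempty (Bd k)]
    (hu : ∀ x y, uGF P W a b c (k x) (k y) (fact M x y))
    (hw : ∀ i x, gGF a b c i (k x) → ∃! y, wGF a b c i (k x) (k y) (fact M x y)) :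
    POAx W ((bd M k).ord ()) ((bd M k).bin 0) ((bd M k).bin 1) ((bd M k).bin 2) (dc k) := by
  have hu' : ∀ x y : Bd k, (lev (dc k x).s = lev (dc k y).s → ¬ M.ord () x.1 y.1) ∧
      uPO W (dc k x) (dc k y) (der (dc k x) (dc k y) (fact M x.1 y.1)) := by
    intro x y
    have := hu x.1 y.1
    rw [dc_eq k x, dc_eq k y] at this
    exact this
  have hadj := H.adj
  refine (poAx_iff (bd M k) (dc k) ?_).2 ⟨fun x y => ?_, fun i x hg => ?_⟩
  · -- transitivity
    intro x y z hxy hyz
    have hxy : pl (dc k x) (dc k y) (M.ord () x.1 y.1) := hxy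
    have hyz : pl (dc k y) (dc k z) (M.ord () y.1 z.1) := hyz
    show pl (dc k x) (dc k z) (M.ord () x.1 z.1)
    have l1 := hxy.1
    have l2 := hyz.1
    have l3 := lev_le (dc k z).s
    have lx : lev (dc k x).s = 0 := by omega
    have ly : lev (dc k y).s = 1 := by omega
    have lz : lev (dc k z).s = 2 := by omega
    refine ⟨by omega, fun _ hxz => ?_, fun h => absurd ⟨lx, lz⟩ h⟩
    have e1 : M.ord () x.1 y.1 := hxy.2.2 (by omega)
    have e2 : M.ord () y.1 z.1 := hyz.2.2 (by omega)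
    have px : pos a b c (k x.1) = a := by rw [dc_eq k x]; simp [pos, lx]
    have py : pos a b c (k y.1) = b := by rw [dc_eq k y]; simp [pos, ly]
    have pz : pos a b c (k z.1) = c := by rw [dc_eq k z]; simp [pos, lz]
    have hrest : ∀ h : Rest a b c, ∃ w : A, k w = Sum.inr h := fun h => by
      obtain ⟨w, hw1, -⟩ := hw (Sum.inr h) x.1 trivial
      exact ⟨w, hw1⟩
    have hf : ∀ v : V, ∃ w : A, pos a b c (k w) = v ∧ ((v = a ∧ w = x.1) ∨ (v = b ∧ w = y.1) ∨ (v = c ∧ w = z.1) ∨
        (k w).isLeft = false) := by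
      intro v
      by_cases va : v = a
      · exact ⟨x.1, by rw [px, va], Or.inl ⟨va, rfl⟩⟩
      by_cases vb : v = b
      · exact ⟨y.1, by rw [py, vb], Or.inr (Or.inl ⟨vb, rfl⟩)⟩
      by_cases vc : v = c
      · exact ⟨z.1, by rw [pz, vc], Or.inr (Or.inr (Or.inl ⟨vc, rfl⟩))⟩
      · obtain ⟨w, hw1⟩ := hrest ⟨v, va, vb, vc⟩
        exact ⟨w, by rw [hw1]; rfl, Or.inr (Or.inr (Or.inr (by rw [hw1]; rfl)))⟩
    choose f hf1 hf2 using hf
    have hinj : Function.Injective f := fun v v' h => by rw [← hf1 v, ← hf1 v', h]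
    have hgen : ∀ w w' : A, ((k w).isLeft = false ∨ (k w').isLeft = false) →
        (M.ord () w w' ↔ P.Adj (pos a b c (k w)) (pos a b c (k w'))) := by
      intro w w' h
      have := hu w w'
      rcases hk : k w with d | g <;> rcases hk' : k w' with d' | g' <;> rw [hk, hk'] at this h
      · simp at h
      · exact this.1
      · exact this.1
      · exact this.1
    refine hG.free f hinj fun i j => ?_
    by_cases hij : (k (f i)).isLeft = false ∨ (k (f j)).isLeft = false
    · rw [hgen _ _ hij, hf1, hf1]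
    · push Not at hij
      have hi := (hf2 i).imp id (fun h => h.imp id (fun h => h.resolve_right hij.1))
      have hj := (hf2 j).imp id (fun h => h.imp id (fun h => h.resolve_right hij.2))
      rcases hi with ⟨rfl, hi⟩ | ⟨rfl, hi⟩ | ⟨rfl, hi⟩ <;> rcases hj with ⟨hj', hj⟩ | ⟨hj', hj⟩ | ⟨hj', hj⟩ <;>
        rw [hi, hj, hj']
      · exact ⟨fun h => absurd h (hG.irr _), fun h => absurd h (P.loopless.irrefl _)⟩
      · exact ⟨fun _ => hadj.1, fun _ => e1⟩
      · exact ⟨fun _ => hadj.2.1, fun _ => hxz⟩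
      · exact ⟨fun _ => hadj.1.symm, fun _ => hG.symm _ _ e1⟩
      · exact ⟨fun h => absurd h (hG.irr _), fun h => absurd h (P.loopless.irrefl _)⟩
      · exact ⟨fun _ => hadj.2.2, fun _ => e2⟩
      · exact ⟨fun _ => hadj.2.1.symm, fun _ => hG.symm _ _ hxz⟩
      · exact ⟨fun _ => hadj.2.2.symm, fun _ => hG.symm _ _ e2⟩
      · exact ⟨fun h => absurd h (hG.irr _), fun h => absurd h (P.loopless.irrefl _)⟩
  · rw [fact_bd]
    exact (hu' x y).2
  · have h1 := hw (Sum.inl i) x.1 (by rw [dc_eq k x]; exact hg)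
    obtain ⟨y, hy, hy'⟩ := h1
    have key : ∀ y : A, wGF a b c (Sum.inl i) (k x.1) (k y) (fact M x.1 y) → (k y).isLeft = true := by
      intro y hy
      rw [dc_eq k x] at hy
      rcases hk : k y with d | g
      · rfl
      · rw [hk] at hy
        exact absurd hy (by simp [wGF])
    have key2 : ∀ y : Bd k, wGF a b c (Sum.inl i) (k x.1) (k y.1) (fact M x.1 y.1) ↔
        wPO i (dc k x) (dc k y) (fact (bd M k) x y) := by
      intro y
      rw [fact_bd, dc_eq k x, dc_eq k y]
      exact Iff.rfl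
    exact ⟨⟨y, key y hy⟩, (key2 ⟨y, key y hy⟩).1 hy, fun z hz => Subtype.ext (hy' z.1 ((key2 z).2 hz))⟩

/-- the number of elements -/
lemma gf_card [Fintype A] [Fintype (Rest a b c)] (k : A → PCol q ⊕ Rest a b c)
    (h : ∀ g : Rest a b c, ∃! w : A, k w = Sum.inr g) [Fintype (Bd k)] :
    Fintype.card A = Fintype.card (Bd k) + Fintype.card (Rest a b c) := by
  classical
  choose f hf hf' using h
  rw [← Fintype.card_sum]
  refine (Fintype.card_congr (Equiv.ofBijective (Sum.elim (fun x : Bd k => x.1) f) ⟨?_, ?_⟩)).symm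
  · rintro (x | g) (y | g') hxy
    · exact congrArg Sum.inl (Subtype.ext hxy)
    · have h1 : x.1 = f g' := hxy
      have := x.2
      rw [h1, hf] at this
      exact absurd this (by simp)
    · have h1 : f g = y.1 := hxy
      have := y.2
      rw [← h1, hf] at this
      exact absurd this (by simp)
    · have h1 : f g = f g' := hxy
      have h2 := hf g
      rw [h1, hf] at h2
      exact congrArg Sum.inr (Sum.inr.inj h2).symm
  · intro w
    rcases hk : k w with d | g
    · exact ⟨Sum.inl ⟨w, by rw [hk]; rfl⟩, rfl⟩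
    · exact ⟨Sum.inr g, (hf' g w hk).symm⟩

end Pool.Agent.Helper80.GF
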